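import Pool.Agent.H47.SQ.Targets4

/-!
# Search on random k-CNFs (MP_c62aed_lc), row ZMS: all scales together

(adapted from the module `MSD` of helper42 and helper4)
-/

set_option autoImplicit false

namespace Pool.Agent.H47.SQT.ZMS

open Finset Pool.Agent.H97.RK Pool.Agent.H41.SS Pool.Agent.H47.SR
open Pool.Agent.H47.PL (Sat Agr Con dm nsol Os)
open Pool.Agent.H47.SQ (Derivation Refuted Find success sav guess AlmostAll)

open Classical in
private theorem success_eq {n k m : ℕ} (F : Fml n k m) (a s : ℕ) (T : Pool.Agent.H47.SQ.Tree n) :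
    success F a s T = ((univ.filter fun ω => Find F (Refuted F a s) ω T ∅).card : ℝ) /
      (Fintype.card (Finset (Fin n × Bool) → Bool) : ℝ) := by
  unfold success
  rw [Nat.card_eq_fintype_card, Nat.card_eq_fintype_card, Fintype.card_subtype]

private theorem exists_scale {n t R : ℕ} (ht : 1 ≤ t) (hR : 1 ≤ R) (h : R * t ≤ n) :
    ∃ I, R * (2 ^ I * t) ≤ n ∧ n < 2 * (R * (2 ^ I * t)) := by
  classical
  have hex : ∃ i, n < R * (2 ^ i * t) := by
    refine ⟨n, ?_⟩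
    have h1 : n < 2 ^ n := Nat.lt_two_pow_self
    have h2 : 2 ^ n ≤ 2 ^ n * t := Nat.le_mul_of_pos_right _ ht
    have h3 : 2 ^ n * t ≤ R * (2 ^ n * t) := Nat.le_mul_of_pos_left _ hR
    omega
  have hs := Nat.find_spec hex
  rcases hI : Nat.find hex with _ | I
  · rw [hI] at hs
    simp only [pow_zero, one_mul] at hs
    omega
  · rw [hI] at hs
    refine ⟨I, ?_, ?_⟩
    · have := Nat.find_min hex (m := I) (by omega)
      omega
    · have h3 : R * (2 ^ (I + 1) * t) = 2 * (R * (2 ^ I * t)) := by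
        rw [pow_succ]
        ring
      rw [h3] at hs
      exact hs

private theorem tb {X Nh : ℝ} {j t t₀ R : ℕ} (hX : X * 2 ^ (5 * (R * t)) ≤ Nh) (hX0 : 0 ≤ X)
    (h0 : R * t₀ ≤ R * t) (h1 : 8 * t + 2 * j + 4 ≤ R * t) :
    2 ^ (j + 2 + 1) * (X * 2 ^ (4 * (2 * t))) * 2 ^ (R * (2 * t)) ≤
      Nh / 2 ^ (R * t₀) * (1 / 2) ^ (j + 1) := by
  have e : (1 / 2 : ℝ) ^ (j + 1) = 1 / 2 ^ (j + 1) := by
    rw [one_div_pow]
  rw [e, div_mul_div_comm, mul_one, ← pow_add, le_div_iff₀ (by positivity)]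
  refine le_trans ?_ hX
  have e3 : 2 ^ (j + 2 + 1) * (X * 2 ^ (4 * (2 * t))) * 2 ^ (R * (2 * t)) *
      2 ^ (R * t₀ + (j + 1)) =
      X * (2 ^ (j + 2 + 1) * 2 ^ (4 * (2 * t)) * 2 ^ (R * (2 * t)) * 2 ^ (R * t₀ + (j + 1))) := by
    ring
  rw [e3, ← pow_add, ← pow_add, ← pow_add]
  refine mul_le_mul_of_nonneg_left (pow_le_pow_right₀ (by norm_num) ?_) hX0
  have e2 : R * (2 * t) = 2 * (R * t) := by ring
  rw [e2]
  omega

private theorem mainZ (hRSW : T_RSW) (hDRQ : T_DRQ) (hPIG : T_PIG) (R : ℕ) (hR : 144 ≤ R)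
    (hNU : ∀ t s N S : ℕ, 1 ≤ t → s ^ 12 ≤ 2 ^ (7 * ((R + 4) * t)) → S ≤ s →
      R * t ≤ N + 4 * t → N ≤ R * t →
      S * (2 ^ N * bl N (130 * t) * bl N (4 * t)) + 2 ^ N * bl N (140 * t) < 3 ^ N)
    (n k m : ℕ) (F : Fml n k m) (t₀ : ℕ) (Nh : ℝ) (C B : Finset (Fin n → Bool)) (u e a s : ℕ)
    (ht₀ : 1 ≤ t₀) (hRn : R * t₀ ≤ n) (hun : u ≤ n) (hCB : ∀ τ, Sat F τ → τ ∈ C ∨ τ ∈ B)
    (hB : ∀ τ ∈ B, Sat F τ) (hNh2 : Nh ≤ 2 ^ (R * t₀ + n + 1))
    (hbad : ∀ t, t₀ ≤ t → R * t ≤ n →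
      (badr F t (R * t + 4 * t + 1) : ℝ) * 2 ^ (5 * (R * t)) ≤ Nh)
    (ha : a ≤ 2 * t₀) (hs : s ^ 12 ≤ 2 ^ (7 * ((R + 4) * t₀)))
    (hCR : ∃ Res, Rs C (n - u) e (Refuted F a s) Res) (T : Pool.Agent.H47.SQ.Tree n) :
    success F a s T * 2 ^ n ≤ 2 * (C.card * 2 ^ (u + e)) + 4 * (B.card * 2 ^ ((R + 4) * t₀)) +
      Nh / 2 ^ (R * t₀) := by
  classical
  have hNh0 : 0 ≤ Nh := le_trans (by positivity) (hbad t₀ le_rfl hRn)
  have hcon : Con (∅ : Finset (Fin n × Bool)) := fun v b h => absurd h (Finset.notMem_empty _)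
  have hΩ0 : (0 : ℝ) < (Fintype.card (Finset (Fin n × Bool) → Bool) : ℝ) := by
    exact_mod_cast Fintype.card_pos
  obtain ⟨I, hI1, hI2⟩ := exists_scale ht₀ (by omega) hRn
  have htj : ∀ j, t₀ ≤ 2 ^ j * t₀ := fun j => Nat.le_mul_of_pos_left _ (by positivity)
  have htI : ∀ j, j ≤ I → R * (2 ^ j * t₀) ≤ n := fun j hj =>
    (Nat.mul_le_mul_left _ (Nat.mul_le_mul_right _
      (Nat.pow_le_pow_right (by norm_num) hj))).trans hI1
  have hbI : badr F (2 ^ I * t₀) (R * (2 ^ I * t₀) + 4 * (2 ^ I * t₀) + 1) = 0 := by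
    by_contra hne
    have h1 : (1 : ℝ) ≤ badr F (2 ^ I * t₀) (R * (2 ^ I * t₀) + 4 * (2 ^ I * t₀) + 1) := by
      exact_mod_cast Nat.one_le_iff_ne_zero.2 hne
    have h2 : (2 : ℝ) ^ (5 * (R * (2 ^ I * t₀))) ≤ 2 ^ (R * t₀ + n + 1) := by
      refine le_trans ?_ ((hbad (2 ^ I * t₀) (htj I) hI1).trans hNh2)
      exact le_mul_of_one_le_left (by positivity) h1
    have h3 : 5 * (R * (2 ^ I * t₀)) ≤ R * t₀ + n + 1 :=
      (pow_le_pow_iff_right₀ (by norm_num)).1 h2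
    have h4 : R * t₀ ≤ R * (2 ^ I * t₀) := Nat.mul_le_mul_left _ (htj I)
    have h5 : R * 1 ≤ R * t₀ := Nat.mul_le_mul_left _ ht₀
    omega
  obtain ⟨G, hG⟩ : ∃ G : ℕ → Finset (Fin n → Bool), ∀ j, G j =
      gdr F (2 ^ j * t₀) (R * (2 ^ j * t₀) + 4 * (2 ^ j * t₀) + 1) := ⟨_, fun j => rfl⟩
  have hGI : ∀ τ ∈ B, τ ∈ G I := by
    intro τ hτ
    rw [hG]
    unfold gdr
    rw [Finset.mem_filter]
    refine ⟨Finset.mem_univ _, hB τ hτ, ?_⟩
    by_contra hc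
    unfold badr at hbI
    rw [Finset.card_eq_zero, Finset.filter_eq_empty_iff] at hbI
    exact hbI (Finset.mem_univ τ) ⟨hB τ hτ, hc⟩
  -- the classes
  obtain ⟨E, hE0, hE1, hE2⟩ : ∃ E : ℕ → Finset (Fin n → Bool), E 0 = C ∧ E 1 = B ∩ G 0 ∧
      ∀ j, E (j + 2) = B ∩ (G (j + 1) \ G j) :=
    ⟨fun j => Nat.casesOn j C (fun j => Nat.casesOn j (B ∩ G 0)
      (fun j => B ∩ (G (j + 1) \ G j))), rfl, rfl, fun j => rfl⟩
  have hcov : ∀ τ, Sat F τ → ∃ j, j < I + 2 ∧ τ ∈ E j := by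
    intro τ hτ
    rcases hCB τ hτ with hc | hb
    · exact ⟨0, by omega, by rw [hE0]; exact hc⟩
    have hex : ∃ j, τ ∈ G j := ⟨I, hGI τ hb⟩
    obtain ⟨j, hj1, hj2, hj3⟩ : ∃ j, τ ∈ G j ∧ j ≤ I ∧ ∀ i < j, τ ∉ G i :=
      ⟨Nat.find hex, Nat.find_spec hex, Nat.find_min' hex (hGI τ hb),
        fun i hi => Nat.find_min hex hi⟩
    refine ⟨j + 1, by omega, ?_⟩
    cases j with
    | zero =>
      rw [hE1]
      exact Finset.mem_inter.2 ⟨hb, hj1⟩
    | succ j =>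
      rw [hE2, Finset.mem_inter, Finset.mem_sdiff]
      exact ⟨hb, hj1, hj3 j (Nat.lt_succ_self j)⟩
  obtain ⟨f, hf⟩ : ∃ f : ℕ → ℝ, ∀ j, f j =
      ((univ.filter fun ω => FindQ (Refuted F a s) (Qi (E j) j) ω T ∅).card : ℝ) :=
    ⟨_, fun j => rfl⟩
  have hFQ : ((univ.filter fun ω => Find F (Refuted F a s) ω T ∅).card : ℝ) ≤
      ∑ j ∈ range (I + 2), f j := by
    have h1 : (univ.filter fun ω => Find F (Refuted F a s) ω T ∅).card ≤
        ∑ j ∈ range (I + 2),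
          (univ.filter fun ω => FindQ (Refuted F a s) (Qi (E j) j) ω T ∅).card := by
      refine le_trans (Finset.card_le_card ?_) Finset.card_biUnion_le
      intro ω hω
      rw [Finset.mem_filter] at hω
      obtain ⟨j, hj, hq⟩ := hPIG n k m F (Refuted F a s) ω (I + 2) E hcov T ∅ hcon hω.2
      rw [Finset.mem_biUnion]
      exact ⟨j, Finset.mem_range.2 hj, Finset.mem_filter.2 ⟨Finset.mem_univ _, hq⟩⟩
    simp only [hf]
    exact_mod_cast h1
  -- a class with an interface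
  have hcls : ∀ (j v w : ℕ), v ≤ n → (∃ Res, Rs (E j) (n - v) w (Refuted F a s) Res) →
      f j * 2 ^ n ≤ (Fintype.card (Finset (Fin n × Bool) → Bool) : ℝ) *
        (2 ^ (j + 1) * ((E j).card * 2 ^ w) * 2 ^ v) := by
    intro j v w hv hR
    obtain ⟨Res, hRes⟩ := hR
    have h5 := hDRQ n (E j) (n - v) w (Refuted F a s) Res hRes (Nat.sub_le _ _)
      (2 ^ (j + 1)) (Qi (E j) j) (fun L hL => hL) T
    have h6 : f j * 2 ^ (n - v) ≤ 2 ^ (j + 1) * (((E j).card : ℝ) * 2 ^ w) *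
        (Fintype.card (Finset (Fin n × Bool) → Bool) : ℝ) := by
      rw [hf]
      exact_mod_cast h5
    have h7 : (2 : ℝ) ^ n = 2 ^ (n - v) * 2 ^ v := by
      rw [← pow_add, Nat.sub_add_cancel hv]
    rw [h7, ← mul_assoc]
    calc _ ≤ (2 ^ (j + 1) * (((E j).card : ℝ) * 2 ^ w) *
        (Fintype.card (Finset (Fin n × Bool) → Bool) : ℝ)) * 2 ^ v :=
          mul_le_mul_of_nonneg_right h6 (by positivity)
      _ = _ := by ring
  -- the interface at the scale j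
  have hint : ∀ j, j ≤ I → ∀ D : Finset (Fin n → Bool), D ⊆ G j →
      ∃ Res, Rs D (n - R * (2 ^ j * t₀)) (4 * (2 ^ j * t₀)) (Refuted F a s) Res := by
    intro j hj D hD
    obtain ⟨t, ht⟩ : ∃ t : ℕ, t = 2 ^ j * t₀ := ⟨_, rfl⟩
    have ht0 : t₀ ≤ t := by
      rw [ht]
      exact htj j
    have htn : R * t ≤ n := by
      rw [ht]
      exact htI j hj
    have hst : s ^ 12 ≤ 2 ^ (7 * ((R + 4) * t)) :=
      hs.trans (Nat.pow_le_pow_right (by norm_num)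
        (Nat.mul_le_mul_left _ (Nat.mul_le_mul_left _ ht0)))
    have hCt : D ⊆ gdr F t (R * t + 4 * t + 1) := by
      rw [ht, ← hG]
      exact hD
    rw [← ht]
    exact hRSW n k m F R t a s D (by omega) hR htn (by omega) hCt
      (fun N S hS hN1 hN2 => hNU t s N S (by omega) hst hS hN1 hN2)
  have h0 : f 0 * 2 ^ n ≤ (Fintype.card (Finset (Fin n × Bool) → Bool) : ℝ) *
      (2 * (C.card * 2 ^ (u + e))) := by
    have h := hcls 0 u e hun (by rw [hE0]; exact hCR)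
    rw [hE0] at h
    refine h.trans (le_of_eq ?_)
    rw [pow_add 2 u e, zero_add, pow_one]
    ring
  have h1 : f 1 * 2 ^ n ≤ (Fintype.card (Finset (Fin n × Bool) → Bool) : ℝ) *
      (4 * (B.card * 2 ^ ((R + 4) * t₀))) := by
    have h := hcls 1 (R * (2 ^ 0 * t₀)) (4 * (2 ^ 0 * t₀)) (htI 0 (Nat.zero_le _))
      (hint 0 (Nat.zero_le _) _ (by rw [hE1]; exact Finset.inter_subset_right))
    rw [pow_zero, one_mul] at h
    refine h.trans (mul_le_mul_of_nonneg_left ?_ hΩ0.le)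
    have e1 : (2 : ℝ) ^ ((R + 4) * t₀) = 2 ^ (4 * t₀) * 2 ^ (R * t₀) := by
      rw [← pow_add]
      congr 1
      ring
    have e2 : ((E 1).card : ℝ) ≤ B.card := by
      rw [hE1]
      exact_mod_cast Finset.card_le_card Finset.inter_subset_left
    rw [e1]
    have e3 : (0 : ℝ) ≤ 2 ^ (4 * t₀) * 2 ^ (R * t₀) := by positivity
    have e4 := mul_le_mul_of_nonneg_right e2 e3
    calc (2 : ℝ) ^ (1 + 1) * (((E 1).card : ℝ) * 2 ^ (4 * t₀)) * 2 ^ (R * t₀) =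
        4 * (((E 1).card : ℝ) * (2 ^ (4 * t₀) * 2 ^ (R * t₀))) := by ring
      _ ≤ _ := mul_le_mul_of_nonneg_left e4 (by norm_num)
  have h2 : ∀ j ∈ range I, f (j + 2) * 2 ^ n ≤
      (Fintype.card (Finset (Fin n × Bool) → Bool) : ℝ) *
        (Nh / 2 ^ (R * t₀) * (1 / 2) ^ (j + 1)) := by
    intro j hj
    rw [Finset.mem_range] at hj
    obtain ⟨t, ht⟩ : ∃ t : ℕ, t = 2 ^ j * t₀ := ⟨_, rfl⟩
    have e1 : 2 ^ (j + 1) * t₀ = 2 * t := by
      rw [ht, pow_succ]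
      ring
    have h := hcls (j + 2) (R * (2 ^ (j + 1) * t₀)) (4 * (2 ^ (j + 1) * t₀)) (htI (j + 1) hj)
      (hint (j + 1) hj _ (by
        rw [hE2]
        exact Finset.inter_subset_right.trans Finset.sdiff_subset))
    rw [e1] at h
    refine h.trans (mul_le_mul_of_nonneg_left ?_ hΩ0.le)
    have h12 : j + 1 ≤ t := by
      rw [ht]
      have h13 : j < 2 ^ j := Nat.lt_two_pow_self
      exact le_trans (by omega) (Nat.le_mul_of_pos_right _ ht₀)
    have h14 : 144 * t ≤ R * t := Nat.mul_le_mul_right _ hR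
    have h15 : R * t₀ ≤ R * t := by
      rw [ht]
      exact Nat.mul_le_mul_left _ (htj j)
    have h16 : (badr F t (R * t + 4 * t + 1) : ℝ) * 2 ^ (5 * (R * t)) ≤ Nh := by
      rw [ht]
      exact hbad _ (htj j) (htI j hj.le)
    have h17 : ((E (j + 2)).card : ℝ) ≤ badr F t (R * t + 4 * t + 1) := by
      refine Nat.cast_le.2 ?_
      rw [hE2, hG, hG, ht]
      unfold gdr badr
      refine Finset.card_le_card fun τ hτ => ?_
      rw [Finset.mem_inter, Finset.mem_sdiff, Finset.mem_filter] at hτ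
      rw [Finset.mem_filter]
      refine ⟨Finset.mem_univ _, hτ.2.1.2.1, fun h => hτ.2.2 ?_⟩
      rw [Finset.mem_filter]
      exact ⟨Finset.mem_univ _, hτ.2.1.2.1, h⟩
    refine tb ?_ (Nat.cast_nonneg _) h15 (by omega)
    exact (mul_le_mul_of_nonneg_right h17 (by positivity)).trans h16
  have hgeo := sum_geometric_two_le I
  have hsum : ∑ j ∈ range (I + 2), f j * 2 ^ n ≤
      (Fintype.card (Finset (Fin n × Bool) → Bool) : ℝ) *
        (2 * (C.card * 2 ^ (u + e)) + 4 * (B.card * 2 ^ ((R + 4) * t₀)) +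
          Nh / 2 ^ (R * t₀)) := by
    rw [Finset.sum_range_succ', Finset.sum_range_succ']
    have h3 : ∑ j ∈ range I, f (j + 1 + 1) * 2 ^ n ≤
        (Fintype.card (Finset (Fin n × Bool) → Bool) : ℝ) * (Nh / 2 ^ (R * t₀)) := by
      calc ∑ j ∈ range I, f (j + 1 + 1) * 2 ^ n ≤
          ∑ j ∈ range I, (Fintype.card (Finset (Fin n × Bool) → Bool) : ℝ) *
            (Nh / 2 ^ (R * t₀) * (1 / 2) ^ (j + 1)) := Finset.sum_le_sum h2
        _ = (Fintype.card (Finset (Fin n × Bool) → Bool) : ℝ) *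
            (Nh / 2 ^ (R * t₀) * ((1 / 2) * ∑ j ∈ range I, (1 / 2 : ℝ) ^ j)) := by
            rw [Finset.mul_sum, Finset.mul_sum, Finset.mul_sum]
            refine Finset.sum_congr rfl fun j _ => ?_
            rw [pow_succ]
            ring
        _ ≤ (Fintype.card (Finset (Fin n × Bool) → Bool) : ℝ) * (Nh / 2 ^ (R * t₀) * 1) := by
            refine mul_le_mul_of_nonneg_left (mul_le_mul_of_nonneg_left ?_ (by positivity)) hΩ0.le
            linarith only [hgeo]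
        _ = _ := by rw [mul_one]
    rw [zero_add]
    calc _ ≤ (Fintype.card (Finset (Fin n × Bool) → Bool) : ℝ) * (Nh / 2 ^ (R * t₀)) +
        (Fintype.card (Finset (Fin n × Bool) → Bool) : ℝ) *
          (4 * (B.card * 2 ^ ((R + 4) * t₀))) +
        (Fintype.card (Finset (Fin n × Bool) → Bool) : ℝ) * (2 * (C.card * 2 ^ (u + e))) :=
          add_le_add (add_le_add h3 h1) h0
      _ = _ := by ring
  rw [success_eq, div_mul_eq_mul_div, div_le_iff₀ hΩ0, mul_comm _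
    (Fintype.card (Finset (Fin n × Bool) → Bool) : ℝ)]
  refine le_trans (mul_le_mul_of_nonneg_right hFQ (by positivity)) ?_
  rw [Finset.sum_mul]
  exact hsum

/-- (ZMS) all scales together. -/
theorem pf_ZMS (hRSW : T_RSW) (hNUE : T_NUE) (hDRQ : T_DRQ) (hPIG : T_PIG) : T_ZMS := by
  intro n k m F t₀ Nh C B u e a s ht₀ hRn hun hCB hB hNh2 hbad ha hs hCR T
  exact mainZ hRSW hDRQ hPIG (2 ^ 22) (by norm_num) hNUE n k m F t₀ Nh C B u e a s ht₀ hRn hun
    hCB hB hNh2 hbad ha hs hCR T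

end Pool.Agent.H47.SQT.ZMS
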