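import Pool.Agent.H47.SQT.Br
import Pool.Agent.H47.SQT.ZMS
import Pool.Agent.H45.PL.CR2
import Pool.Agent.H19.PL.NS1
import Pool.Agent.H13.PL.PLS
import Pool.Agent.H47.PL.IND
import Pool.Agent.H70.RKS.CN2
import Pool.Agent.H27.RKS.TRS
import Pool.Agent.H32.PLN.OSC
import Pool.Agent.H47.SQ.FIC
import Pool.Agent.H47.SQ.NUE
import Pool.Agent.H47.SQ.XFI
import Pool.Agent.H14.SQP.CLO
import Pool.Agent.H14.SQP.SOL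
import Pool.Agent.H67.SQR.DRQ
import Pool.Agent.H86.SQ.EXQ
import Pool.Agent.H86.SQ.EXV
import Pool.Agent.H45.SQP.MLN
import Pool.Agent.H45.SQP.NCS
import Pool.Agent.H42.SP.MSD
import Pool.Agent.H42.SP.RSW
import Pool.Agent.H4.SQ.NSS
import Pool.Agent.H36.SQ.PIG
import Pool.Agent.H11.SQ.TAR
import Pool.Agent.H51.SQ.UPD
import Pool.Agent.H27.SQ.GOE
import Pool.Agent.H23.SR.NUF
import Pool.Agent.H33.SQR.PGO
import Pool.Agent.H75.PPZ.UPB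
import Pool.Agent.H68.SSM.ASK
import Pool.Agent.H68.SSM.CLS
import Pool.Agent.H35.SSM.HAL
import Pool.Agent.H99.SSM.SAF
import Pool.Agent.H42.SSM.TRN
import Pool.Agent.H34.SQ3.XAS
import Pool.Agent.H34.SQ3.XCY
import Pool.Agent.H43.SQR.XCN
import Pool.Agent.H43.SQR.XSQ
import Pool.Agent.H37.SR.XCR
import Pool.Agent.H37.SR.XEX
import Pool.Agent.H11.PPZ.XEP
import Pool.Agent.H19.SQ.XEU
import Pool.Agent.H19.SQ.XZB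
import Pool.Agent.H69.SQR.XFR
import Pool.Agent.H69.SQR.XNC
import Pool.Agent.H17.SR.XL1
import Pool.Agent.H48.SQ.XLG
import Pool.Agent.H48.SQ.XSU
import Pool.Agent.H14.SQP.XML
import Pool.Agent.H14.SQP.XUP
import Pool.Agent.H40.SQX.XPB
import Pool.Agent.H73.SQR.XPE
import Pool.Agent.H89.SQ.XS0
import Pool.Agent.H27.SQ3.XTA
import Pool.Agent.H53.SQ.XCL
import Pool.Agent.H7.SR.XGO
import Pool.Agent.H19.SQ.XNL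
import Pool.Agent.H13.SQ.XNS
import Pool.Agent.H32.SR.XNB
import Pool.Agent.H32.SR.XNE
import Pool.Agent.H47.SQ.XNP
import Pool.Agent.H47.SQ.ZFI
import Pool.Agent.H47.SQ.ZNC
import Pool.Agent.H47.SQ.ZNP
import Pool.Agent.H23.SR.ZEQ
import Pool.Agent.H23.SR.ZGO
import Pool.Agent.H75.PPZ.ZEV
import Pool.Agent.H75.PPZ.ZRS
import Pool.Agent.H23.SR.ZNB

/-!
The savings of PPSZ-type search on random k-CNFs (MP_c62aed_lc): the theorem.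
-/

set_option autoImplicit false

namespace Pool.Agent.H47.SQT

open Pool.Agent.H47.SR

theorem ask : Pool.Agent.H41.SS.T_ASK := H68.SSM.pf_ASK H35.SSM.pf_HAL H68.SSM.pf_CLS

theorem tar : T_TAR := H11.SQ.pf_TAR ask

theorem sol : T_SOL := H14.SQP.pf_SOL H14.SQP.pf_CLO

theorem rsw : T_RSW :=
  H42.SP.pf_RSW sol ask tar
    (H45.SQP.pf_NCS H42.SSM.pf_TRN tar (H45.SQP.pf_MLN (H99.SSM.pf_SAF H35.SSM.pf_HAL)
      H27.RKS.pf_TRS) (H45.PL.pf_CR2 H70.RKS.pf_CN2))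

theorem exv : T_EXV := H86.SQ.pf_EXV H33.SQR.pf_PGO H32.PLN.pf_OSC

theorem exq : T_EXQ := H86.SQ.pf_EXQ H33.SQR.pf_PGO H32.PLN.pf_OSC

theorem nss : T_NSS := H4.SR.pf_NSS H19.PL.pf_NS1

theorem goe : T_GOE :=
  H27.SQP.pf_GOE exv exq (H13.PL.pf_PLS H32.PLN.pf_OSC) nss H23.SR.pf_NUF H32.PLN.pf_OSC

theorem upper : Pool.Agent.H47.SQ.Upper :=
  pf_FIC (H42.SP.pf_MSD rsw H47.SQ.NUE.pf_NUE (H67.SQR.pf_DRQ H47.PL.pf_IND) H36.SQ.pf_PIG) goe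

theorem xas : T_XAS := H34.SQ3.pf_XAS H35.SSM.pf_HAL H53.SQ.pf_XCL

theorem xl1 : T_XL1 := H17.SR.pf_XL1 xas pf_XCN

theorem xup : T_XUP := H14.SQP.pf_XUP xas pf_XCN xl1

theorem xnc : T_XNC :=
  H69.SQR.pf_XNC H42.SSM.pf_TRN (H27.SQ3.pf_XTA xl1)
    (H14.SQP.pf_XML (H99.SSM.pf_SAF H35.SSM.pf_HAL) H27.RKS.pf_TRS) H37.SR.pf_XCR

theorem xfr : T_XFR := H69.SQR.pf_XFR sol xup xnc

theorem xex : T_XEX := H37.SR.pf_XEX (H89.SQ.pf_XS0 pf_XCN H34.SQ3.pf_XCY) xfr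

theorem xlg : T_XLG := H48.SQ.pf_XLG rsw H47.SQ.NUE.pf_NUE pf_XSQ

theorem xeu : T_XEU :=
  H19.SQ.XEU.pf_XEU H40.SQX.pf_XPB H73.SQR.pf_XPE H19.SQ.XZB.pf_XZB H32.PLN.pf_OSC

theorem xep : T_XEP :=
  H11.PPZ.pf_XEP H40.SQX.pf_XPB H73.SQR.pf_XPE H19.SQ.XZB.pf_XZB H32.PLN.pf_OSC

theorem xns : T_XNS := H13.SR.pf_XNS H19.PL.pf_NS1

theorem xgo : T_XGO :=
  H7.SRX.pf_XGO xeu xep xns exv exq (H13.PL.pf_PLS H32.PLN.pf_OSC) nss H23.SR.pf_NUF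
    H32.PLN.pf_OSC

theorem exact : Pool.Agent.H47.SQ.Exact :=
  pf_XFI xex H48.SQ.pf_XSU xlg (H47.SQ.XNP.pf_XNP H32.SR.pf_XNB H32.SR.pf_XNE) xgo
    H51.SQ.pf_UPD H75.PPZ.pf_UPB H19.SQ.XNL.pf_XNL

theorem mln : T_MLN := H45.SQP.pf_MLN (H99.SSM.pf_SAF H35.SSM.pf_HAL) H27.RKS.pf_TRS

theorem zrs : T_ZRS :=
  H75.PPZ.pf_ZRS sol ask tar (H47.SQ.ZNC.pf_ZNC H42.SSM.pf_TRN tar mln H37.SR.pf_XCR)

theorem zgo : T_ZGO :=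
  H23.SR.pf_ZGO (H75.PPZ.pf_ZEV H33.SQR.pf_PGO H32.PLN.pf_OSC)
    (H23.SR.pf_ZEQ H33.SQR.pf_PGO H32.PLN.pf_OSC) xns exv exq (H13.PL.pf_PLS H32.PLN.pf_OSC)
    nss H23.SR.pf_NUF H32.PLN.pf_OSC

theorem zms : T_ZMS :=
  SQT.ZMS.pf_ZMS rsw H47.SQ.NUE.pf_NUE (H67.SQR.pf_DRQ H47.PL.pf_IND) H36.SQ.pf_PIG

theorem sharp : Pool.Agent.H47.SQ.Sharp :=
  H47.SQ.ZFI.pf_ZFI zrs zms (H47.SQ.ZNP.pf_ZNP H23.SR.pf_ZNB) zgo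

theorem main : SQT.Upper ∧ SQT.Exact := ⟨upper_br upper, exact_br exact sharp⟩

end Pool.Agent.H47.SQT
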