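import Pool.Agent.H47.SQT.Stmt
import Pool.Agent.H47.SQ.Stmt2
import Pool.Agent.H47.SQ.Stmt3
import Pool.Agent.H47.SQ.Stmt4

/-!
The savings of PPSZ-type search on random k-CNFs (MP_c62aed_lc): the parts together.
-/

set_option autoImplicit false

namespace Pool.Agent.H47.SQT

open Finset Pool.Agent.H47.SQ

theorem exact_br (h : SQ.Exact) (h' : SQ.Sharp) : SQT.Exact := by
  intro ε hε
  obtain ⟨c₁, K₁, hc₁, hK₁⟩ := h ε hε
  obtain ⟨c₂, K₂, hc₂, hK₂⟩ := h' ε hε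
  obtain ⟨c, hc⟩ : ∃ c : ℝ, c = min c₁ c₂ := ⟨_, rfl⟩
  have hc0 : 0 < c := by
    rw [hc]
    exact lt_min hc₁ hc₂
  have hcc1 : c ≤ c₁ := by
    rw [hc]
    exact min_le_left _ _
  have hcc2 : c ≤ c₂ := by
    rw [hc]
    exact min_le_right _ _
  refine ⟨c, K₁ + K₂ + 1, hc0, fun k n m hk hn hm1 hm2 => ?_⟩
  have hk1 : 1 ≤ k := by omega
  have hk1' : (1 : ℝ) ≤ k := by exact_mod_cast hk1
  have hsav : 0 ≤ sav n k m * n := by
    have h0 : (0 : ℝ) ≤ m / (2 ^ k * n) := by positivity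
    have h1 : 0 ≤ Real.log (k * (1 + m / (2 ^ k * n))) := by
      refine Real.log_nonneg ?_
      have h2 : (1 : ℝ) * 1 ≤ k * (1 + m / (2 ^ k * n)) :=
        mul_le_mul hk1' (by linarith) (by norm_num) (by linarith)
      linarith
    unfold sav
    positivity
  have hms : ∀ (c' : ℝ) (s : ℕ), c ≤ c' → (s : ℝ) ≤ (2 : ℝ) ^ (c * sav n k m * n) →
      (s : ℝ) ≤ (2 : ℝ) ^ (c' * sav n k m * n) := by
    intro c' s hc' hs
    refine hs.trans (Real.rpow_le_rpow_of_exponent_le (by norm_num) ?_)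
    rw [mul_assoc, mul_assoc]
    exact mul_le_mul_of_nonneg_right hc' hsav
  have hm1' : (2 : ℝ) ^ k * n ≤ (k : ℝ) ^ c₁ * m :=
    hm1.trans (mul_le_mul_of_nonneg_right (Real.rpow_le_rpow_of_exponent_le hk1' hcc1)
      (Nat.cast_nonneg _))
  have hm2' : ∀ c' : ℝ, c ≤ c' → (m : ℝ) ≤ (2 : ℝ) ^ ((1 + c') * k) * n := by
    intro c' hc'
    refine hm2.trans (mul_le_mul_of_nonneg_right ?_ (Nat.cast_nonneg _))
    exact Real.rpow_le_rpow_of_exponent_le (by norm_num)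
      (mul_le_mul_of_nonneg_right (by linarith) (by linarith))
  obtain ⟨⟨G₁, hG₁, hGF₁⟩, hL⟩ := hK₁ k n m (by omega)
    ((Nat.mul_le_mul_right _ (by omega)).trans hn) hm1' (hm2' c₁ hcc1)
  refine ⟨?_, hL⟩
  by_cases hcase : k ^ (K₁ + K₂ + 1) * (2 ^ k * n) ≤ m
  · obtain ⟨G₂, hG₂, hGF₂⟩ := hK₂ k n m (by omega)
      ((Nat.mul_le_mul_right _ (by omega)).trans hn)
      ((Nat.mul_le_mul_right _ (Nat.pow_le_pow_right hk1 (by omega))).trans hcase)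
      (hm2' c₂ hcc2)
    exact ⟨G₂, hG₂, fun F hF a s T ha hs _ => hGF₂ F hF a s T ha (hms c₂ s hcc2 hs)⟩
  · refine ⟨G₁, hG₁, fun F hF a s T ha hs hT => ?_⟩
    rcases hT with rfl | hT
    · exact hGF₁ F hF a s ha (hms c₁ s hcc1 hs)
    · exact absurd hT hcase

theorem upper_br (h : SQ.Upper) : SQT.Upper := h

end Pool.Agent.H47.SQT
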