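import Pool.Agent.H47.SQ.Defs

/-!
The savings of PPSZ-type search on random k-CNFs (MP_c62aed_lc): the statement. The definitions are
in `Pool/Agent/H47/SQ/Defs.lean`. There `m = Δ 2 ^ k n` is the number of the clauses,
`sav = log (k (1 + Δ)) / k` and `guess = 2 ^ (- n) + (1 - 2 ^ (- k)) ^ m`.
-/

set_option autoImplicit false

namespace Pool.Agent.H47.SQT

open Pool.Agent.H47.SQ

/-- For almost all `F` every search whose refutations have at most `s` lines and use consequences of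
at most `sav n` clauses succeeds with probability at most `s ^ (12 / 7) 2 ^ (C sav n) guess`. -/
def Upper : Prop :=
  ∃ C : ℝ, ∀ k n m : ℕ, 2 ≤ k → k ≤ n → ∃ G : Set (Fml n k m), AlmostAll G ∧
    ∀ F ∈ G, ∀ (a s : ℕ) (T : Tree n), 1 ≤ s → (a : ℝ) ≤ sav n k m * n →
      success F a s T ≤ (s : ℝ) ^ (12 / 7 : ℝ) * (2 : ℝ) ^ (C * sav n k m * n) * guess n k m

/-- Let `k ^ (- c) ≤ Δ ≤ 2 ^ (c k)`. For almost all `F` the search in a fixed order of the variables
(for `Δ ≥ k ^ K`: every search) whose refutations have at most `2 ^ (c sav n)` lines and use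
consequences of at most `n / k` clauses succeeds with probability at most
`2 ^ ((1 + ε) sav n) guess`. For almost all pairs `(F, σ)` the search in a fixed order in which a
value is refuted only by a violated clause succeeds with probability at least
`2 ^ ((1 - ε) sav n) guess`. -/
def Exact : Prop :=
  ∀ ε : ℝ, 0 < ε → ∃ (c : ℝ) (K : ℕ), 0 < c ∧ ∀ k n m : ℕ, K ≤ k → K * k ≤ n →
    (2 : ℝ) ^ k * n ≤ (k : ℝ) ^ c * m → (m : ℝ) ≤ (2 : ℝ) ^ ((1 + c) * k) * n →
    (∃ G : Set (Fml n k m), AlmostAll G ∧ ∀ F ∈ G, ∀ (a s : ℕ) (T : Tree n), a ≤ n / k →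
      (s : ℝ) ≤ (2 : ℝ) ^ (c * sav n k m * n) →
      T = chain (List.finRange n) ∨ k ^ K * (2 ^ k * n) ≤ m →
      success F a s T ≤ (2 : ℝ) ^ ((1 + ε) * sav n k m * n) * guess n k m) ∧
    (n : ℝ) * Nat.card {p : Fml n k m × (Fin n → Bool) // Dist p.1 ∧ Sat p.1 p.2 ∧
      ¬ (2 : ℝ) ^ ((1 - ε) * sav n k m * n) * guess n k m ≤
        success p.1 1 1 (chain (List.finRange n))} ≤
      Nat.card {p : Fml n k m × (Fin n → Bool) // Dist p.1 ∧ Sat p.1 p.2}

end Pool.Agent.H47.SQT
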